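import Mathlib

/-!
# Unit cells on a line (helper68)

Weights `w b ≥ 0` are laid one after another on a line; the unit intervals of the line are the cells.
-/

set_option autoImplicit false

namespace Pool.Agent.Work.MP_db9399_hx.helper68

open Finset Classical

universe u

/-- length of `[s, s + w]` below `t` -/
noncomputable def psi (s w t : ℝ) : ℝ := min (max (t - s) 0) w

theorem psi_mono {s w t t' : ℝ} (h : t ≤ t') : psi s w t ≤ psi s w t' := by
  unfold psi
  exact min_le_min_right _ (max_le_max_right _ (by linarith))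

theorem psi_step {m w t : ℝ} (hw : 0 ≤ w) : min t m + psi m w t = min t (m + w) := by
  unfold psi
  rcases le_total t m with h | h
  · rw [min_eq_left h, max_eq_right (by linarith), min_eq_left hw, min_eq_left (by linarith)]
    ring
  · rw [min_eq_right h, max_eq_left (by linarith)]
    rcases le_total (t - m) w with h' | h'
    · rw [min_eq_left h', min_eq_left (by linarith)]
      ring
    · rw [min_eq_right h', min_eq_right (by linarith)]

theorem psi_sum (w : ℕ → ℝ) (hw : ∀ i, 0 ≤ w i) {t : ℝ} (ht : 0 ≤ t) (n : ℕ) :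
    ∑ i ∈ range n, psi (∑ j ∈ range i, w j) (w i) t = min t (∑ j ∈ range n, w j) := by
  induction n with
  | zero => simp [min_eq_right ht]
  | succ n ih => rw [sum_range_succ, ih, psi_step (hw n), sum_range_succ]

/-- cells for numbered weights -/
theorem cellsN (P : ℕ) (w : ℕ → ℝ) (hw : ∀ i, 0 ≤ w i) :
    ∃ (k : ℕ) (p : ℕ → Fin k → ℝ), (∀ i q, 0 ≤ p i q) ∧ (∀ i < P, ∑ q, p i q = w i) ∧
      (∀ q, ∑ i ∈ range P, p i q ≤ 1) ∧
      (∀ i, (((univ.filter fun q => p i q ≠ 0).card : ℕ) : ℝ) ≤ w i + 2) ∧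
      (k : ℝ) ≤ ∑ i ∈ range P, w i + 1 := by
  set T : ℝ := ∑ i ∈ range P, w i with hT
  have hT0 : 0 ≤ T := sum_nonneg fun i _ => hw i
  set s : ℕ → ℝ := fun i => ∑ j ∈ range i, w j with hs
  have hs0 : ∀ i, 0 ≤ s i := fun i => sum_nonneg fun j _ => hw j
  refine ⟨⌈T⌉₊, fun i q => psi (s i) (w i) ((q : ℕ) + 1) - psi (s i) (w i) ((q : ℕ) : ℝ),
    fun i q => ?_, fun i hi => ?_, fun q => ?_, fun i => ?_, ?_⟩
  · exact sub_nonneg.2 (psi_mono (by linarith))
  · have h1 : ∑ q : Fin ⌈T⌉₊, (psi (s i) (w i) ((q : ℕ) + 1) - psi (s i) (w i) ((q : ℕ) : ℝ)) =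
        ∑ q ∈ range ⌈T⌉₊, (psi (s i) (w i) (((q + 1 : ℕ) : ℝ)) - psi (s i) (w i) (q : ℝ)) := by
      rw [← Fin.sum_univ_eq_sum_range
        (fun q : ℕ => psi (s i) (w i) (((q + 1 : ℕ) : ℝ)) - psi (s i) (w i) (q : ℝ)) ⌈T⌉₊]
      exact sum_congr rfl fun q _ => by push_cast; rfl
    rw [h1, sum_range_sub (fun q : ℕ => psi (s i) (w i) (q : ℝ))]
    have h2 : s i + w i ≤ T := by
      have e : s i + w i = ∑ j ∈ range (i + 1), w j := (sum_range_succ w i).symm
      rw [e, hT]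
      exact sum_le_sum_of_subset_of_nonneg (range_subset_range.2 hi) fun j _ _ => hw j
    have h3 : T ≤ (⌈T⌉₊ : ℝ) := Nat.le_ceil T
    have h4 : psi (s i) (w i) (⌈T⌉₊ : ℝ) = w i := by
      unfold psi
      rw [max_eq_left (by have := hw i; linarith), min_eq_right (by linarith)]
    have h5 : psi (s i) (w i) ((0 : ℕ) : ℝ) = 0 := by
      unfold psi
      rw [Nat.cast_zero, max_eq_right (by have := hs0 i; linarith), min_eq_left (hw i)]
    rw [h4, h5, sub_zero]
  · rw [sum_sub_distrib, psi_sum w hw (by positivity), psi_sum w hw (by positivity)]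
    have h1 : min (((q : ℕ) : ℝ) + 1) (∑ j ∈ range P, w j) ≤
        min ((q : ℕ) : ℝ) (∑ j ∈ range P, w j) + 1 := by
      rw [← min_add_add_right]
      exact min_le_min_left _ (by linarith)
    linarith
  · have h1 : (univ.filter fun q : Fin ⌈T⌉₊ =>
        psi (s i) (w i) ((q : ℕ) + 1) - psi (s i) (w i) ((q : ℕ) : ℝ) ≠ 0).card ≤
        (Finset.Ico ⌊s i⌋₊ ⌈s i + w i⌉₊).card := by
      refine card_le_card_of_injOn (fun q => (q : ℕ)) ?_ (fun a _ b _ h => Fin.ext h)
      intro q hq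
      rw [mem_coe, mem_filter] at hq
      rw [mem_coe, mem_Ico]
      have hne := hq.2
      constructor
      · by_contra hc
        rw [not_le] at hc
        have h2 : (((q : ℕ) : ℝ)) + 1 ≤ s i := by
          have h3 : (q : ℕ) + 1 ≤ ⌊s i⌋₊ := hc
          calc (((q : ℕ) : ℝ)) + 1 = (((q : ℕ) + 1 : ℕ) : ℝ) := by push_cast; rfl
            _ ≤ (⌊s i⌋₊ : ℝ) := Nat.cast_le.2 h3
            _ ≤ s i := Nat.floor_le (hs0 i)
        apply hne
        unfold psi
        rw [max_eq_right (by linarith), max_eq_right (by linarith)]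
        ring
      · by_contra hc
        rw [not_lt] at hc
        have h2 : s i + w i ≤ ((q : ℕ) : ℝ) := (Nat.le_ceil _).trans (Nat.cast_le.2 hc)
        apply hne
        unfold psi
        have := hw i
        rw [max_eq_left (by linarith), max_eq_left (by linarith), min_eq_right (by linarith),
          min_eq_right (by linarith)]
        ring
    rw [Nat.card_Ico] at h1
    have h2 : (((univ.filter fun q : Fin ⌈T⌉₊ =>
        psi (s i) (w i) ((q : ℕ) + 1) - psi (s i) (w i) ((q : ℕ) : ℝ) ≠ 0).card : ℕ) : ℝ) ≤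
        ((⌈s i + w i⌉₊ - ⌊s i⌋₊ : ℕ) : ℝ) := Nat.cast_le.2 h1
    refine h2.trans ?_
    have h3 : ((⌈s i + w i⌉₊ : ℕ) : ℝ) < s i + w i + 1 :=
      Nat.ceil_lt_add_one (add_nonneg (hs0 i) (hw i))
    have h4 : s i < (⌊s i⌋₊ : ℝ) + 1 := Nat.lt_floor_add_one _
    have h5 : ((⌈s i + w i⌉₊ - ⌊s i⌋₊ : ℕ) : ℝ) ≤ max ((⌈s i + w i⌉₊ : ℝ) - ⌊s i⌋₊) 0 := by
      rcases le_total ⌊s i⌋₊ ⌈s i + w i⌉₊ with h | h
      · rw [Nat.cast_sub h]
        exact le_max_left _ _
      · rw [Nat.sub_eq_zero_of_le h]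
        simp
    refine h5.trans (max_le (by linarith) ?_)
    have := hw i
    linarith
  · exact (Nat.ceil_lt_add_one hT0).le

/-- **Unit cells.** -/
theorem cells {B : Type u} [Fintype B] (w : B → ℝ) (hw : ∀ b, 0 ≤ w b) :
    ∃ (k : ℕ) (p : B → Fin k → ℝ), (∀ b q, 0 ≤ p b q) ∧ (∀ b, ∑ q, p b q = w b) ∧
      (∀ q, ∑ b, p b q ≤ 1) ∧
      (∀ b, (((univ.filter fun q => p b q ≠ 0).card : ℕ) : ℝ) ≤ w b + 2) ∧
      (k : ℝ) ≤ ∑ b, w b + 1 := by
  set e := Fintype.equivFin B with he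
  set w' : ℕ → ℝ := fun i => if h : i < Fintype.card B then w (e.symm ⟨i, h⟩) else 0 with hw'
  have hw'0 : ∀ i, 0 ≤ w' i := by
    intro i
    simp only [hw']
    split_ifs
    · exact hw _
    · exact le_rfl
  have hwe : ∀ b, w' (e b : ℕ) = w b := by
    intro b
    simp only [hw']
    rw [dif_pos (e b).2]
    simp
  obtain ⟨k, p, h1, h2, h3, h4, h5⟩ := cellsN (Fintype.card B) w' hw'0
  have hsum : ∀ f : ℕ → ℝ, ∑ i ∈ range (Fintype.card B), f i = ∑ b, f (e b : ℕ) := by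
    intro f
    rw [← Fin.sum_univ_eq_sum_range f, ← Equiv.sum_comp e]
  refine ⟨k, fun b q => p (e b : ℕ) q, fun b q => h1 _ _, fun b => ?_, fun q => ?_, fun b => ?_, ?_⟩
  · rw [h2 _ (e b).2, hwe]
  · have := h3 q
    rw [hsum] at this
    exact this
  · have := h4 (e b : ℕ)
    rwa [hwe] at this
  · rw [hsum] at h5
    simpa only [hwe] using h5

end Pool.Agent.Work.MP_db9399_hx.helper68
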