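import Pool.Agent.Work.MP_db9399_as_helper89.HALL
import Pool.Agent.Work.MP_db9399_hx_helper68.CELLS

/-!
# MP_db9399, HALLX: Hall from certificates with general exits (helper68)

`hall0`, `allQ`: as `hall`, `all_colours` of `MP_db9399_as_helper89/HALL.lean` (helper89), but the exits
are the elements of arbitrary finite types `QA`, `QC` (one copy per exit): a copy `(b, u)` with
`u ∈ MA b` may use the exit `q` if `ad b u q`; enough are the deficiency inequalities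
`#U - #Y ≤` (fractional exit mass of `U`), given by `def_star` (certificates with stars) or `def_slack`
(certificates in slack form), and total exit mass at most `1` at every exit.
-/

set_option autoImplicit false

namespace Pool.Agent.Work.MP_db9399_hx.helper68

open Finset Classical
open Pool.Agent.Work.MP_db9399_cr (Mch md)
open Pool.Agent.Work.MP_db9399_as.helper89 (Cert)

universe u v w w'

section Global

variable {V : Type u} {B : Type v} [Fintype V] [Fintype B]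

/-- the neighbours of the copy `(b, u)` : partner, reserve neighbours, exits -/
noncomputable def lst {Q : Type w} [Fintype Q] (C : B → Finset V) (N : B → V → V) (W MA : B → Finset V)
    (S : B → V → V → Prop) (ad : B → V → Q → Prop) (p : B × V) : Finset ((B × V) ⊕ Q) :=
  {q | (∃ y ∈ C p.1, ((p.2 ∉ W p.1 ∧ N p.1 p.2 = y) ∨ S p.1 p.2 y) ∧ q = Sum.inl (p.1, y)) ∨
    (p.2 ∈ MA p.1 ∧ ∃ q', ad p.1 p.2 q' ∧ q = Sum.inr q')}

theorem mem_lst {Q : Type w} [Fintype Q] {C : B → Finset V} {N : B → V → V} {W MA : B → Finset V}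
    {S : B → V → V → Prop} {ad : B → V → Q → Prop} {p : B × V} {q : (B × V) ⊕ Q} :
    q ∈ lst C N W MA S ad p ↔
      (∃ y ∈ C p.1, ((p.2 ∉ W p.1 ∧ N p.1 p.2 = y) ∨ S p.1 p.2 y) ∧ q = Sum.inl (p.1, y)) ∨
      (p.2 ∈ MA p.1 ∧ ∃ q', ad p.1 p.2 q' ∧ q = Sum.inr q') := by
  simp only [lst, mem_filter, mem_univ, true_and]

/-- Hall for the copies on one side, general exits, from the deficiency inequality of every colour -/
theorem hall0 {Q : Type w} [Fintype Q] (A C : B → Finset V) (N : B → V → V) (W MA : B → Finset V)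
    (S : B → V → V → Prop) (ad : B → V → Q → Prop) (pq : B → V → Q → ℝ)
    (hp0 : ∀ b u q, 0 ≤ pq b u q)
    (hb : ∀ b, ∀ U ⊆ A b, ∀ Y : Finset V,
      (∀ y, y ∈ Y ↔ y ∈ C b ∧ ∃ u ∈ U, (u ∉ W b ∧ N b u = y) ∨ S b u y) →
      (#U : ℝ) - #Y ≤ ∑ u ∈ U with u ∈ MA b, ∑ q with ad b u q, pq b u q)
    (hp1 : ∀ q, ∑ b, ∑ u ∈ A b with u ∈ MA b ∧ ad b u q, pq b u q ≤ 1) :
    ∃ f : {p : B × V // p.2 ∈ A p.1} → (B × V) ⊕ Q, Function.Injective f ∧
      ∀ p, f p ∈ lst C N W MA S ad p.1 := by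
  refine (Finset.all_card_le_biUnion_card_iff_exists_injective
    (fun p : {p : B × V // p.2 ∈ A p.1} => lst C N W MA S ad p.1)).1 ?_
  intro U0
  set U : B → Finset V := fun b => {u | ∃ hu : u ∈ A b, (⟨(b, u), hu⟩ : {p : B × V // p.2 ∈ A p.1})
    ∈ U0} with hU
  have hUm : ∀ b u, u ∈ U b ↔ ∃ hu : u ∈ A b, (⟨(b, u), hu⟩ : {p : B × V // p.2 ∈ A p.1}) ∈ U0 := by
    intro b u
    simp only [hU, mem_filter, mem_univ, true_and]
  have hUA : ∀ b, U b ⊆ A b := fun b u hu => ((hUm b u).1 hu).1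
  set Y : B → Finset V := fun b => {y ∈ C b | ∃ u ∈ U b, (u ∉ W b ∧ N b u = y) ∨ S b u y} with hY
  have hYm : ∀ b y, y ∈ Y b ↔ y ∈ C b ∧ ∃ u ∈ U b, (u ∉ W b ∧ N b u = y) ∨ S b u y := by
    intro b y
    simp only [hY, mem_filter]
  set M : Finset Q := {q | ∃ b, ∃ u ∈ U b, u ∈ MA b ∧ ad b u q} with hM
  -- size of `U0`
  have c1 : #U0 = ∑ b, #(U b) := by
    rw [← card_sigma]
    refine card_bij (fun p _ => (⟨p.1.1, p.1.2⟩ : Σ _ : B, V)) ?_ ?_ ?_
    · rintro ⟨⟨b, u⟩, hu⟩ hp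
      rw [mem_sigma]
      exact ⟨mem_univ _, (hUm b u).2 ⟨hu, hp⟩⟩
    · rintro ⟨⟨b, u⟩, hu⟩ _ ⟨⟨b', u'⟩, hu'⟩ _ heq
      simp only [Sigma.mk.injEq, heq_eq_eq] at heq
      obtain ⟨rfl, rfl⟩ := heq
      rfl
    · rintro ⟨b, u⟩ hp
      rw [mem_sigma] at hp
      obtain ⟨hu, hp2⟩ := (hUm b u).1 hp.2
      exact ⟨_, hp2, rfl⟩
  -- size of the neighbourhood
  have c2 : ∑ b, #(Y b) + #M ≤ #(U0.biUnion fun p => lst C N W MA S ad p.1) := by
    have g1 : ∑ b, #(Y b) = #(univ.sigma Y) := (card_sigma _ _).symm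
    have g2 : #((univ.sigma Y).disjSum M) = #(univ.sigma Y) + #M := card_disjSum _ _
    rw [g1, ← g2]
    refine card_le_card_of_injOn (Sum.map (fun p => (p.1, p.2)) id) ?_ ?_
    · intro q hq
      rw [mem_coe] at hq ⊢
      rw [mem_biUnion]
      rw [mem_disjSum] at hq
      rcases hq with ⟨⟨b, y⟩, hp, rfl⟩ | ⟨v, hv, rfl⟩
      · rw [mem_sigma] at hp
        obtain ⟨hy, u, hu, hr⟩ := (hYm b y).1 hp.2
        obtain ⟨hu1, hu2⟩ := (hUm b u).1 hu
        exact ⟨_, hu2, mem_lst.2 (Or.inl ⟨y, hy, hr, rfl⟩)⟩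
      · simp only [hM, mem_filter, mem_univ, true_and] at hv
        obtain ⟨b, u, hu, hu3, had⟩ := hv
        obtain ⟨hu1, hu2⟩ := (hUm b u).1 hu
        exact ⟨_, hu2, mem_lst.2 (Or.inr ⟨hu3, v, had, rfl⟩)⟩
    · rintro (⟨b, y⟩ | v) _ (⟨b', y'⟩ | v') _ heq
      · simp only [Sum.map_inl, Sum.inl.injEq, Prod.mk.injEq] at heq
        obtain ⟨rfl, rfl⟩ := heq
        rfl
      · simp at heq
      · simp at heq
      · simpa using heq
  -- the estimate
  have c4 : ∑ b, ∑ u ∈ U b with u ∈ MA b, ∑ q with ad b u q, pq b u q ≤ #M := by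
    have g1 : ∑ b, ∑ u ∈ U b with u ∈ MA b, ∑ q with ad b u q, pq b u q ≤
        ∑ b, ∑ u ∈ U b with u ∈ MA b, ∑ q ∈ M, (if ad b u q then pq b u q else 0) := by
      refine sum_le_sum fun b _ => sum_le_sum fun u hu => ?_
      rw [mem_filter] at hu
      refine le_of_eq ?_
      rw [← sum_filter]
      refine sum_congr ?_ fun _ _ => rfl
      ext q
      simp only [hM, mem_filter, mem_univ, true_and]
      exact ⟨fun g => ⟨⟨b, u, hu.1, hu.2, g⟩, g⟩, fun g => g.2⟩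
    refine g1.trans ?_
    have g2 : ∑ b, ∑ u ∈ U b with u ∈ MA b, ∑ q ∈ M, (if ad b u q then pq b u q else 0) =
        ∑ q ∈ M, ∑ b, ∑ u ∈ U b with u ∈ MA b, (if ad b u q then pq b u q else 0) := by
      rw [sum_congr rfl fun b _ => sum_comm (s := {u ∈ U b | u ∈ MA b}) (t := M), sum_comm]
    rw [g2]
    have g3 : ∀ q ∈ M, ∑ b, ∑ u ∈ U b with u ∈ MA b, (if ad b u q then pq b u q else 0) ≤ 1 := by
      intro q _
      refine le_trans (sum_le_sum fun b _ => ?_) (hp1 q)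
      rw [← sum_filter]
      refine sum_le_sum_of_subset_of_nonneg (fun u hu => ?_) fun u _ _ => hp0 b u q
      simp only [mem_filter] at hu ⊢
      exact ⟨hUA b hu.1.1, hu.1.2, hu.2⟩
    have g4 := sum_le_sum g3
    simpa using g4
  have c5 : (∑ b, (#(U b) : ℝ)) - ∑ b, (#(Y b) : ℝ) ≤ #M := by
    rw [← sum_sub_distrib]
    exact (sum_le_sum fun b _ => hb b (U b) (hUA b) (Y b) (hYm b)).trans c4
  have c6 : ∑ b, #(U b) ≤ ∑ b, #(Y b) + #M := by
    have : (∑ b, (#(U b) : ℝ)) ≤ ∑ b, (#(Y b) : ℝ) + #M := by linarith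
    exact_mod_cast this
  rw [c1]
  exact c6.trans c2

omit [Fintype V] [Fintype B] in
/-- the deficiency inequality of one colour from a certificate with stars -/
theorem def_star {A C W MA K : Finset V} {N : V → V} {S : V → V → Prop} {x : V → V → ℝ} {e : V → ℝ}
    {Dm Dt Dp T0 m m' τ Ex σ : ℝ} (h : Cert A C W MA K S x e Dm Dt Dp T0 m m' τ)
    (hN : ∀ u ∈ A, u ∉ W → N u ∈ C ∧ N u ∉ W ∧ N (N u) = u)
    (hτ : 0 ≤ τ) (hm : 0 ≤ m) (hDp : 0 < Dp) (hDm : 0 ≤ Dm) (hDt : 0 < Dt) (hT0 : 0 ≤ T0)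
    (hEx0 : 0 ≤ Ex) (hEx : Dp - Dm + Dm * (T0 / Dt) ≤ Ex) (hσ0 : 0 < σ)
    (hσ : σ * Dp ≤ m * (m' / Dp) - Ex) (he0 : ∀ u ∈ A, u ∈ MA → 0 ≤ e u)
    (U : Finset V) (hU : U ⊆ A) (Y : Finset V)
    (hY : ∀ y, y ∈ Y ↔ y ∈ C ∧ ∃ u ∈ U, (u ∉ W ∧ N u = y) ∨ S u y) :
    (#U : ℝ) - #Y ≤ ∑ u ∈ U with u ∈ MA, (e u + τ * Ex / σ) := by
  by_cases hle : #Y ≤ #U
  · obtain ⟨g1, g2⟩ := h.bound hτ hm hDp hDm hDt hT0 hEx hσ hN U hU Y hY hle
    rw [sum_add_distrib, sum_const, nsmul_eq_mul]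
    refine g1.trans (add_le_add le_rfl ?_)
    have g3 : 0 ≤ τ * Ex := mul_nonneg hτ hEx0
    have g4 := mul_le_mul_of_nonneg_left g2 (div_nonneg g3 hσ0.le)
    have g5 : τ * Ex / σ * (σ * #U) = τ * Ex * #U := by
      field_simp
    rw [g5] at g4
    linarith
  · have g1 : (#U : ℝ) - #Y ≤ 0 := by
      have : (#U : ℝ) ≤ #Y := by exact_mod_cast (not_le.1 hle).le
      linarith
    refine g1.trans (sum_nonneg fun u hu => ?_)
    simp only [mem_filter] at hu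
    exact add_nonneg (he0 u (hU hu.1) hu.2)
      (div_nonneg (mul_nonneg hτ hEx0) hσ0.le)

/-- the certificate of one colour in slack form (helper61): no condition on stars -/
structure CertS (A C : Finset V) (W : Finset V) (S : V → V → Prop)
    (x : V → V → ℝ) (z : V → ℝ) (Dm Dt Dp T0 τ Ex : ℝ) : Prop where
  hx : ∀ u ∈ A, ∀ y ∈ C, S u y → -τ ≤ x u y
  c1 : ∀ u ∈ A, (if u ∈ W then (1 : ℝ) else 0) + τ * Ex ≤ ∑ y ∈ C with S u y, x u y + z u
  c2 : ∀ y ∈ C, ∑ u ∈ A with S u y, x u y ≤ if y ∈ W then (1 : ℝ) else 0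
  d1 : ∀ u ∈ A, u ∉ W → Dm ≤ (#{y ∈ C | S u y} : ℝ)
  d1t : ∀ u ∈ A, u ∈ W → Dt ≤ (#{y ∈ C | S u y} : ℝ)
  d1' : ∀ u ∈ A, (#{y ∈ C | S u y} : ℝ) ≤ Dp
  d2 : ∀ y ∈ C, (#{u ∈ A | S u y} : ℝ) ≤ Dp
  d3 : ∀ y ∈ C, (#{u ∈ A | u ∈ W ∧ S u y} : ℝ) ≤ T0
  z0 : ∀ u ∈ A, 0 ≤ z u

omit [Fintype B] in
/-- the deficiency inequality of one colour from a certificate in slack form -/
theorem def_slack {A C W : Finset V} {N : V → V} {S : V → V → Prop} {x : V → V → ℝ} {z : V → ℝ}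
    {Dm Dt Dp T0 τ Ex : ℝ} (h : CertS A C W S x z Dm Dt Dp T0 τ Ex)
    (hN : ∀ u ∈ A, u ∉ W → N u ∈ C ∧ N u ∉ W ∧ N (N u) = u)
    (hτ : 0 ≤ τ) (hDp : 0 < Dp) (hDm : 0 ≤ Dm) (hDt : 0 < Dt) (hT0 : 0 ≤ T0)
    (hEx : Dp - Dm + Dm * (T0 / Dt) ≤ Ex)
    (U : Finset V) (hU : U ⊆ A) (Y : Finset V)
    (hY : ∀ y, y ∈ Y ↔ y ∈ C ∧ ∃ u ∈ U, (u ∉ W ∧ N u = y) ∨ S u y) :
    (#U : ℝ) - #Y ≤ ∑ u ∈ U, z u := by
  by_cases hle : #Y ≤ #U
  · have hc : Cert A C W univ univ S x (fun u => z u - τ * Ex) Dm Dt Dp T0 0 0 τ :=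
      { hx := h.hx
        c1 := fun u hu => by
          have := h.c1 u hu
          linarith
        c2 := h.c2
        d1 := h.d1
        d1t := h.d1t
        d1' := h.d1'
        d2 := h.d2
        d3 := h.d3
        c4 := fun y _ _ => Nat.cast_nonneg _
        c5 := fun u _ => Nat.cast_nonneg _
        e0 := fun u _ hu => absurd (mem_univ u) hu }
    have hσ : (-Ex / Dp) * Dp ≤ 0 * (0 / Dp) - Ex := by
      rw [div_mul_cancel₀ _ hDp.ne']
      linarith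
    obtain ⟨g1, _⟩ := hc.bound hτ le_rfl hDp hDm hDt hT0 hEx hσ hN U hU Y hY hle
    rw [filter_true_of_mem (fun u _ => mem_univ u), sum_sub_distrib, sum_const, nsmul_eq_mul] at g1
    linarith
  · have g1 : (#U : ℝ) - #Y ≤ 0 := by
      have : (#U : ℝ) ≤ #Y := by exact_mod_cast (not_le.1 hle).le
      linarith
    exact g1.trans (sum_nonneg fun u hu => h.z0 u (hU hu))

/-- all copies on both sides matched at once, general exits -/
theorem allQ {QA : Type w} {QC : Type w'} [Fintype QA] [Fintype QC]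
    (A C : B → Finset V) (N : B → V → V) (W MA MC : B → Finset V)
    (S : B → V → V → Prop) (ad : B → V → QA → Prop) (ad' : B → V → QC → Prop)
    (f : {p : B × V // p.2 ∈ A p.1} → (B × V) ⊕ QA)
    (g : {p : B × V // p.2 ∈ C p.1} → (B × V) ⊕ QC)
    (hf1 : Function.Injective f) (hf2 : ∀ p, f p ∈ lst C N W MA S ad p.1)
    (hg1 : Function.Injective g) (hg2 : ∀ p, g p ∈ lst A N W MC (fun b u v => S b v u) ad' p.1)
    (hAC : ∀ b, Disjoint (A b) (C b))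
    (hN : ∀ b, ∀ u ∈ A b, u ∉ W b → N b u ∈ C b ∧ N b u ∉ W b ∧ N b (N b u) = u)
    (hN' : ∀ b, ∀ u ∈ C b, u ∉ W b → N b u ∈ A b ∧ N b u ∉ W b ∧ N b (N b u) = u) :
    ∃ (F : B → V → V) (xA : B → V → Option QA) (xC : B → V → Option QC),
      (∀ b, ∀ v ∈ A b, (F b v = v ∧ v ∈ MA b ∧ ∃ q, xA b v = some q ∧ ad b v q) ∨
        (F b v ∈ C b ∧ F b (F b v) = v ∧ xA b v = none ∧
          ((v ∉ W b ∧ N b v = F b v) ∨ S b v (F b v)))) ∧
      (∀ b, ∀ v ∈ C b, (F b v = v ∧ v ∈ MC b ∧ ∃ q, xC b v = some q ∧ ad' b v q) ∨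
        (F b v ∈ A b ∧ F b (F b v) = v ∧ xC b v = none ∧
          ((v ∉ W b ∧ N b v = F b v) ∨ S b (F b v) v))) ∧
      (∀ b v b' v' q, v ∈ A b → v' ∈ A b' → xA b v = some q → xA b' v' = some q →
        b = b' ∧ v = v') ∧
      ∀ b v b' v' q, v ∈ C b → v' ∈ C b' → xC b v = some q → xC b' v' = some q →
        b = b' ∧ v = v' := by
  set M1 : Finset (((B × V) ⊕ QC) × ((B × V) ⊕ QA)) :=
    univ.image (fun p : {p : B × V // p.2 ∈ A p.1} => (Sum.inl p.1, f p)) with hM1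
  set M2 : Finset (((B × V) ⊕ QC) × ((B × V) ⊕ QA)) :=
    univ.image (fun p : {p : B × V // p.2 ∈ C p.1} => (g p, Sum.inl p.1)) with hM2
  have hM1m : ∀ q, q ∈ M1 ↔ ∃ p : {p : B × V // p.2 ∈ A p.1}, q = (Sum.inl p.1, f p) := by
    intro q
    simp only [hM1, mem_image, mem_univ, true_and, eq_comm]
  have hM2m : ∀ q, q ∈ M2 ↔ ∃ p : {p : B × V // p.2 ∈ C p.1}, q = (g p, Sum.inl p.1) := by
    intro q
    simp only [hM2, mem_image, mem_univ, true_and, eq_comm]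
  obtain ⟨M, hMsub, hMm, hMx, hMy⟩ := md (Prod.fst : ((B × V) ⊕ QC) × ((B × V) ⊕ QA) → _) Prod.snd
    M1 M2
    ⟨by
      intro a ha b hb hab
      obtain ⟨p, rfl⟩ := (hM1m a).1 ha
      obtain ⟨q, rfl⟩ := (hM1m b).1 hb
      have : p = q := Subtype.ext (Sum.inl.inj hab)
      rw [this],
    by
      intro a ha b hb hab
      obtain ⟨p, rfl⟩ := (hM1m a).1 ha
      obtain ⟨q, rfl⟩ := (hM1m b).1 hb
      rw [hf1 hab]⟩
    ⟨by
      intro a ha b hb hab
      obtain ⟨p, rfl⟩ := (hM2m a).1 ha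
      obtain ⟨q, rfl⟩ := (hM2m b).1 hb
      rw [hg1 hab],
    by
      intro a ha b hb hab
      obtain ⟨p, rfl⟩ := (hM2m a).1 ha
      obtain ⟨q, rfl⟩ := (hM2m b).1 hb
      have : p = q := Subtype.ext (Sum.inl.inj hab)
      rw [this]⟩
  -- the relation along an edge of `M`
  have hrel : ∀ b u b' y, (Sum.inl (b, u), Sum.inl (b', y)) ∈ M →
      b = b' ∧ u ∈ A b ∧ y ∈ C b ∧ ((u ∉ W b ∧ N b u = y) ∨ S b u y) := by
    intro b u b' y hq
    rcases mem_union.1 (hMsub hq) with hq | hq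
    · obtain ⟨p, hp⟩ := (hM1m _).1 hq
      simp only [Prod.mk.injEq, Sum.inl.injEq] at hp
      have h2 := hf2 p
      rw [← hp.2, ← hp.1, mem_lst] at h2
      rcases h2 with ⟨y', hy', hr, heq⟩ | ⟨_, _, _, heq⟩
      · simp only [Sum.inl.injEq, Prod.mk.injEq] at heq
        obtain ⟨rfl, rfl⟩ := heq
        have h3 := p.2
        rw [← hp.1] at h3
        exact ⟨rfl, h3, hy', hr⟩
      · exact absurd heq (by simp)
    · obtain ⟨p, hp⟩ := (hM2m _).1 hq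
      simp only [Prod.mk.injEq, Sum.inl.injEq] at hp
      have h2 := hg2 p
      rw [← hp.1, ← hp.2, mem_lst] at h2
      rcases h2 with ⟨y', hy', hr, heq⟩ | ⟨_, _, _, heq⟩
      · simp only [Sum.inl.injEq, Prod.mk.injEq] at heq
        obtain ⟨rfl, rfl⟩ := heq
        have h3 := p.2
        rw [← hp.2] at h3
        refine ⟨rfl, hy', h3, ?_⟩
        rcases hr with ⟨hr1, hr2⟩ | hr
        · left
          obtain ⟨k1, k2, k3⟩ := hN' _ _ h3 hr1
          exact ⟨by rw [← hr2]; exact k2, by rw [← hr2]; exact k3⟩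
        · exact Or.inr hr
      · exact absurd heq (by simp)
  have hstar : ∀ b u q, (Sum.inl (b, u), Sum.inr q) ∈ M → u ∈ MA b ∧ ad b u q := by
    intro b u v hq
    rcases mem_union.1 (hMsub hq) with hq | hq
    · obtain ⟨p, hp⟩ := (hM1m _).1 hq
      simp only [Prod.mk.injEq] at hp
      have h2 := hf2 p
      rw [← hp.2, ← Sum.inl.inj hp.1, mem_lst] at h2
      rcases h2 with ⟨y', hy', hr, heq⟩ | ⟨h3, q', h4, heq⟩
      · exact absurd heq (by simp)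
      · simp only [Sum.inr.injEq] at heq
        subst heq
        exact ⟨h3, h4⟩
    · obtain ⟨p, hp⟩ := (hM2m _).1 hq
      exact absurd (congrArg Prod.snd hp) (by simp)
  have hstar' : ∀ b u q, (Sum.inr q, Sum.inl (b, u)) ∈ M → u ∈ MC b ∧ ad' b u q := by
    intro b u v hq
    rcases mem_union.1 (hMsub hq) with hq | hq
    · obtain ⟨p, hp⟩ := (hM1m _).1 hq
      exact absurd (congrArg Prod.fst hp) (by simp)
    · obtain ⟨p, hp⟩ := (hM2m _).1 hq
      simp only [Prod.mk.injEq] at hp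
      have h2 := hg2 p
      rw [← hp.1, ← Sum.inl.inj hp.2, mem_lst] at h2
      rcases h2 with ⟨y', hy', hr, heq⟩ | ⟨h3, q', h4, heq⟩
      · exact absurd heq (by simp)
      · simp only [Sum.inr.injEq] at heq
        subst heq
        exact ⟨h3, h4⟩
  have hcovA : ∀ b, ∀ u ∈ A b, ∃ q, (Sum.inl (b, u), q) ∈ M := by
    intro b u hu
    obtain ⟨⟨a, c⟩, ha, hb⟩ := hMx (Sum.inl (b, u), f ⟨(b, u), hu⟩) ((hM1m _).2 ⟨⟨(b, u), hu⟩, rfl⟩)
    simp only at hb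
    exact ⟨c, hb ▸ ha⟩
  have hcovC : ∀ b, ∀ u ∈ C b, ∃ q, (q, Sum.inl (b, u)) ∈ M := by
    intro b u hu
    obtain ⟨⟨a, c⟩, ha, hb⟩ := hMy (g ⟨(b, u), hu⟩, Sum.inl (b, u)) ((hM2m _).2 ⟨⟨(b, u), hu⟩, rfl⟩)
    simp only at hb
    exact ⟨a, hb ▸ ha⟩
  -- the maps
  have hF : ∀ b v, ∃ (w : V) (qa : Option QA) (qc : Option QC),
      (v ∈ A b → ((Sum.inl (b, v), Sum.inl (b, w)) ∈ M ∧ qa = none) ∨
        (w = v ∧ ∃ q, qa = some q ∧ (Sum.inl (b, v), Sum.inr q) ∈ M)) ∧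
      (v ∈ C b → ((Sum.inl (b, w), Sum.inl (b, v)) ∈ M ∧ qc = none) ∨
        (w = v ∧ ∃ q, qc = some q ∧ (Sum.inr q, Sum.inl (b, v)) ∈ M)) := by
    intro b v
    by_cases hv : v ∈ A b
    · have hvC : v ∉ C b := Finset.disjoint_left.1 (hAC b) hv
      obtain ⟨q, hq⟩ := hcovA b v hv
      rcases q with ⟨b', w⟩ | q
      · have := (hrel _ _ _ _ hq).1
        subst this
        exact ⟨w, none, none, fun _ => Or.inl ⟨hq, rfl⟩, fun hc => absurd hc hvC⟩
      · exact ⟨v, some q, none, fun _ => Or.inr ⟨rfl, q, rfl, hq⟩, fun hc => absurd hc hvC⟩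
    · by_cases hvC : v ∈ C b
      · obtain ⟨q, hq⟩ := hcovC b v hvC
        rcases q with ⟨b', w⟩ | q
        · have := (hrel _ _ _ _ hq).1
          subst this
          exact ⟨w, none, none, fun hc => absurd hc hv, fun _ => Or.inl ⟨hq, rfl⟩⟩
        · exact ⟨v, none, some q, fun hc => absurd hc hv, fun _ => Or.inr ⟨rfl, q, rfl, hq⟩⟩
      · exact ⟨v, none, none, fun hc => absurd hc hv, fun hc => absurd hc hvC⟩
  choose F xA xC hFA hFC using hF
  -- two edges of `M` at the same place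
  have hux : ∀ {p q q'}, (p, q) ∈ M → (p, q') ∈ M → q = q' := fun h1 h2 =>
    congrArg Prod.snd (hMm.1 _ h1 _ h2 rfl)
  have huy : ∀ {p p' q}, (p, q) ∈ M → (p', q) ∈ M → p = p' := fun h1 h2 =>
    congrArg Prod.fst (hMm.2 _ h1 _ h2 rfl)
  refine ⟨F, xA, xC, ?_, ?_, ?_, ?_⟩
  · intro b v hv
    rcases hFA b v hv with ⟨h1, h1'⟩ | ⟨h1, q, hq, h2⟩
    · right
      obtain ⟨_, _, h3, h4⟩ := hrel _ _ _ _ h1
      refine ⟨h3, ?_, h1', h4⟩
      rcases hFC b _ h3 with ⟨h5, _⟩ | ⟨_, q, _, h5⟩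
      · have := huy h5 h1
        simpa using this
      · exact absurd (huy h5 h1) (by simp)
    · exact Or.inl ⟨h1, (hstar _ _ _ h2).1, q, hq, (hstar _ _ _ h2).2⟩
  · intro b v hv
    rcases hFC b v hv with ⟨h1, h1'⟩ | ⟨h1, q, hq, h2⟩
    · right
      obtain ⟨_, h3, _, h4⟩ := hrel _ _ _ _ h1
      refine ⟨h3, ?_, h1', ?_⟩
      · rcases hFA b _ h3 with ⟨h5, _⟩ | ⟨_, q, _, h5⟩
        · have := hux h5 h1
          simpa using this
        · exact absurd (hux h5 h1) (by simp)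
      · rcases h4 with ⟨h4, h5⟩ | h4
        · left
          obtain ⟨k1, k2, k3⟩ := hN b _ h3 h4
          rw [h5] at k1 k2 k3
          exact ⟨k2, k3⟩
        · exact Or.inr h4
    · exact Or.inl ⟨h1, (hstar' _ _ _ h2).1, q, hq, (hstar' _ _ _ h2).2⟩
  · intro b v b' v' q hv hv' h1 h2
    rcases hFA b v hv with ⟨_, h3⟩ | ⟨_, q1, hq1, h3⟩
    · rw [h3] at h1
      exact absurd h1 (by simp)
    · rcases hFA b' v' hv' with ⟨_, h4⟩ | ⟨_, q2, hq2, h4⟩
      · rw [h4] at h2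
        exact absurd h2 (by simp)
      · rw [h1] at hq1
        rw [h2] at hq2
        obtain rfl := Option.some.inj hq1
        obtain rfl := Option.some.inj hq2
        have := huy h3 h4
        simpa using this
  · intro b v b' v' q hv hv' h1 h2
    rcases hFC b v hv with ⟨_, h3⟩ | ⟨_, q1, hq1, h3⟩
    · rw [h3] at h1
      exact absurd h1 (by simp)
    · rcases hFC b' v' hv' with ⟨_, h4⟩ | ⟨_, q2, hq2, h4⟩
      · rw [h4] at h2
        exact absurd h2 (by simp)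
      · rw [h1] at hq1
        rw [h2] at hq2
        obtain rfl := Option.some.inj hq1
        obtain rfl := Option.some.inj hq2
        have := hux h3 h4
        simpa using this

end Global

end Pool.Agent.Work.MP_db9399_hx.helper68
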