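import Pool.Agent.Work.MP_db9399_hx_helper68.HALLQ

/-!
# MP_db9399, HALLX: exits = stars and nodes (helper68)

Vertices of a node (`nd v = some n`) have no capacity of their own: colour `b` may stop at the node
`n` at most `demand + 2` times, and the colours of one class together at most `demand + 1` times.
-/

set_option autoImplicit false

namespace Pool.Agent.Work.MP_db9399_hx.helper68

open Finset Classical
open Pool.Agent.Work.MP_db9399_as.helper89 (Cert)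

universe u v w w'

section Side

variable {V : Type u} {B : Type v} [Fintype V] [Fintype B] {ι : Type w} {κ : Type w'}

/-- the possible stops: stars and vertices of nodes -/
noncomputable def stp (St : Finset V) (nd : V → Option ι) : Finset V := {v | v ∈ St ∨ nd v ≠ none}

theorem mem_stp {St : Finset V} {nd : V → Option ι} {v : V} :
    v ∈ stp St nd ↔ v ∈ St ∨ nd v ≠ none := by
  simp [stp]

/-- the exit mass of colour `b` at the node `n` -/
noncomputable def dem (A : B → Finset V) (nd : V → Option ι) (D : B → V → ℝ) (b : B)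
    (n : ι) : ℝ := ∑ u ∈ A b with nd u = some n, D b u

/-- the exits -/
abbrev Exi (V : Type u) (ι : Type w) (κ : Type w') (k : ι × κ → ℕ) : Type (max u w w') :=
  V ⊕ (Σ nc : ι × κ, Fin (k nc))

/-- the exits of a copy -/
def adx (St : Finset V) (nd : V → Option ι) (cl : B → κ) (k : ι × κ → ℕ)
    (p : (nc : ι × κ) → B → Fin (k nc) → ℝ) (b : B) (u : V) : Exi V ι κ k → Prop
  | Sum.inl v => u = v ∧ u ∈ St
  | Sum.inr c => nd u = some c.1.1 ∧ cl b = c.1.2 ∧ p c.1 b c.2 ≠ 0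

/-- the fractional assignment -/
noncomputable def pqx (St : Finset V) (D : B → V → ℝ) (k : ι × κ → ℕ)
    (p : (nc : ι × κ) → B → Fin (k nc) → ℝ) (wt : ι × κ → B → ℝ) (b : B) (u : V) :
    Exi V ι κ k → ℝ
  | Sum.inl v => if u = v ∧ u ∈ St then D b u else 0
  | Sum.inr c => D b u * p c.1 b c.2 / wt c.1 b

variable [Fintype ι] [Fintype κ]

/-- one side: Hall with stars and nodes. `D b u` = exit mass of the copy `(b, u)`. -/
theorem hallS (A C : B → Finset V) (N : B → V → V) (W : B → Finset V) (St : Finset V)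
    (nd : V → Option ι) (cl : B → κ) (hSt : ∀ v ∈ St, nd v = none)
    (S : B → V → V → Prop) (D : B → V → ℝ) (hD0 : ∀ b, ∀ u ∈ A b, u ∈ stp St nd → 0 ≤ D b u)
    (hb : ∀ b, ∀ U ⊆ A b, ∀ Y : Finset V,
      (∀ y, y ∈ Y ↔ y ∈ C b ∧ ∃ u ∈ U, (u ∉ W b ∧ N b u = y) ∨ S b u y) →
      (#U : ℝ) - #Y ≤ ∑ u ∈ U with u ∈ stp St nd, D b u)
    (hst : ∀ u ∈ St, ∑ b with u ∈ A b, D b u ≤ 1) :
    ∃ (Q : Type (max u w w')) (_ : Fintype Q) (ad : B → V → Q → Prop)
      (f : {p : B × V // p.2 ∈ A p.1} → (B × V) ⊕ Q),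
      Function.Injective f ∧ (∀ p, f p ∈ lst C N W (fun _ => stp St nd) S ad p.1) ∧
      (∀ v, nd v = none → ∀ b b' q q', ad b v q → ad b' v q' → q = q') ∧
      (∀ v, nd v = none → ∀ b q, ad b v q → v ∈ St) ∧
      (∀ n b (I : Finset (B × V)) (g : B × V → Option Q), (∀ p ∈ I, p.1 = b ∧ nd p.2 = some n ∧
        ∃ q, g p = some q ∧ ad p.1 p.2 q) → Set.InjOn g I →
          (#I : ℝ) ≤ dem A nd D b n + 2) ∧
      (∀ n c (I : Finset (B × V)) (g : B × V → Option Q), (∀ p ∈ I, cl p.1 = c ∧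
        nd p.2 = some n ∧ ∃ q, g p = some q ∧ ad p.1 p.2 q) → Set.InjOn g I →
        (#I : ℝ) ≤ ∑ b with cl b = c, dem A nd D b n + 1) := by
  obtain ⟨D', hD'⟩ : ∃ D' : B → V → ℝ, ∀ b u, D' b u =
      if u ∈ A b ∧ u ∈ stp St nd then D b u else 0 := ⟨_, fun _ _ => rfl⟩
  have hD'0 : ∀ b u, 0 ≤ D' b u := by
    intro b u
    rw [hD']
    split_ifs with hu
    · exact hD0 b u hu.1 hu.2
    · exact le_rfl
  have hD1 : ∀ b u, u ∈ A b → u ∈ stp St nd → D' b u = D b u := by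
    intro b u h1 h2
    rw [hD', if_pos ⟨h1, h2⟩]
  have hdem : ∀ b n, dem A nd D b n = ∑ u ∈ A b with nd u = some n, D' b u := by
    intro b n
    refine sum_congr rfl fun u hu => ?_
    rw [mem_filter] at hu
    exact (hD1 b u hu.1 (mem_stp.2 (Or.inr (by rw [hu.2]; simp)))).symm
  have hdem0 : ∀ b n, 0 ≤ dem A nd D b n := by
    intro b n
    rw [hdem]
    exact sum_nonneg fun u _ => hD'0 b u
  obtain ⟨wt, hwt⟩ : ∃ wt : ι × κ → B → ℝ, ∀ nc b, wt nc b =
      if cl b = nc.2 then dem A nd D b nc.1 else 0 := ⟨_, fun _ _ => rfl⟩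
  have hwt0 : ∀ nc b, 0 ≤ wt nc b := by
    intro nc b
    rw [hwt]
    split_ifs
    · exact hdem0 _ _
    · exact le_rfl
  have hwt1 : ∀ n b, wt (n, cl b) b = dem A nd D b n := by
    intro n b
    rw [hwt, if_pos rfl]
  choose k p hp0 hps hp1 hp2 hk using fun nc => cells (wt nc) (hwt0 nc)
  obtain ⟨ad, had⟩ : ∃ ad : B → V → Exi V ι κ k → Prop, ad = adx St nd cl k p := ⟨_, rfl⟩
  obtain ⟨pq, hpq⟩ : ∃ pq : B → V → Exi V ι κ k → ℝ, pq = pqx St D' k p wt := ⟨_, rfl⟩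
  have ad1 : ∀ b u v, ad b u (Sum.inl v) ↔ u = v ∧ u ∈ St := fun b u v => by rw [had]; rfl
  have ad2 : ∀ b u c, ad b u (Sum.inr c) ↔ nd u = some c.1.1 ∧ cl b = c.1.2 ∧ p c.1 b c.2 ≠ 0 :=
    fun b u c => by rw [had]; rfl
  have pq1 : ∀ b u v, pq b u (Sum.inl v) = if u = v ∧ u ∈ St then D' b u else 0 :=
    fun b u v => by rw [hpq]; rfl
  have pq2 : ∀ b u c, pq b u (Sum.inr c) = D' b u * p c.1 b c.2 / wt c.1 b :=
    fun b u c => by rw [hpq]; rfl
  have hpq0 : ∀ b u q, 0 ≤ pq b u q := by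
    intro b u q
    rcases q with v | c
    · rw [pq1]
      split_ifs
      · exact hD'0 b u
      · exact le_rfl
    · rw [pq2]
      exact div_nonneg (mul_nonneg (hD'0 b u) (hp0 _ _ _)) (hwt0 _ _)
  have hpqs : ∀ b, ∀ u ∈ A b, u ∈ stp St nd → D b u ≤ ∑ q with ad b u q, pq b u q := by
    intro b u hu hu2
    rw [← hD1 b u hu hu2]
    by_cases hs : u ∈ St
    · have h1 : pq b u (Sum.inl u) ≤ ∑ q with ad b u q, pq b u q := by
        refine single_le_sum (f := pq b u) (fun q _ => hpq0 b u q) ?_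
        rw [mem_filter, ad1]
        exact ⟨mem_univ _, rfl, hs⟩
      refine le_trans (le_of_eq ?_) h1
      rw [pq1, if_pos ⟨rfl, hs⟩]
    · have hn : nd u ≠ none := (mem_stp.1 hu2).resolve_left hs
      obtain ⟨n, hn⟩ := Option.ne_none_iff_exists'.1 hn
      have h1 : ∑ j : Fin (k (n, cl b)), pq b u (Sum.inr ⟨(n, cl b), j⟩) ≤
          ∑ q with ad b u q, pq b u q := by
        have e1 : ∑ j : Fin (k (n, cl b)), pq b u (Sum.inr ⟨(n, cl b), j⟩) =
            ∑ j ∈ univ.filter (fun j : Fin (k (n, cl b)) => p (n, cl b) b j ≠ 0),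
              pq b u (Sum.inr ⟨(n, cl b), j⟩) := by
          rw [sum_filter]
          refine sum_congr rfl fun j _ => ?_
          split_ifs with hj
          · rfl
          · rw [not_not] at hj
            rw [pq2]
            simp only [hj, mul_zero, zero_div]
        rw [e1]
        have e2 : ∑ j ∈ univ.filter (fun j : Fin (k (n, cl b)) => p (n, cl b) b j ≠ 0),
              pq b u (Sum.inr ⟨(n, cl b), j⟩) =
            ∑ q ∈ (univ.filter (fun j : Fin (k (n, cl b)) => p (n, cl b) b j ≠ 0)).image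
              (fun j => (Sum.inr ⟨(n, cl b), j⟩ : Exi V ι κ k)), pq b u q := by
          rw [sum_image]
          intro a _ a' _ haa
          have := Sum.inr.inj haa
          simpa using this
        rw [e2]
        refine sum_le_sum_of_subset_of_nonneg ?_ fun q _ _ => hpq0 b u q
        intro q hq
        rw [mem_image] at hq
        obtain ⟨j, hj, rfl⟩ := hq
        rw [mem_filter, ad2]
        exact ⟨mem_univ _, hn, rfl, (mem_filter.1 hj).2⟩
      refine le_trans ?_ h1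
      simp only [pq2]
      rw [← sum_div, ← mul_sum, hps]
      by_cases hw0 : wt (n, cl b) b = 0
      · have h2 : D' b u ≤ 0 := by
          rw [hwt1, hdem] at hw0
          rw [← hw0]
          exact single_le_sum (f := fun u => D' b u) (fun u _ => hD'0 b u)
            (mem_filter.2 ⟨hu, hn⟩)
        rw [hw0]
        simp only [mul_zero, zero_div]
        exact h2
      · rw [mul_div_assoc, div_self hw0, mul_one]
  have hpq1 : ∀ q, ∑ b, ∑ u ∈ A b with u ∈ stp St nd ∧ ad b u q, pq b u q ≤ 1 := by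
    intro q
    rcases q with v | ⟨⟨n, c⟩, j⟩
    · by_cases hv : v ∈ St
      · have h1 : ∑ b, ∑ u ∈ A b with u ∈ stp St nd ∧ ad b u (Sum.inl v), pq b u (Sum.inl v) ≤
            ∑ b with v ∈ A b, D b v := by
          rw [sum_filter]
          refine sum_le_sum fun b _ => ?_
          split_ifs with hvb
          · have h2 : ({u ∈ A b | u ∈ stp St nd ∧ ad b u (Sum.inl v)} : Finset V) ⊆ {v} := by
              intro u hu
              rw [mem_filter, ad1] at hu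
              rw [mem_singleton]
              exact hu.2.2.1
            have h3 := sum_le_sum_of_subset_of_nonneg (f := fun u => pq b u (Sum.inl v)) h2
              fun u _ _ => hpq0 b u (Sum.inl v)
            refine h3.trans ?_
            rw [sum_singleton, pq1, if_pos ⟨rfl, hv⟩, hD1 b v hvb (mem_stp.2 (Or.inl hv))]
          · refine le_of_eq (sum_eq_zero fun u hu => ?_)
            rw [mem_filter, ad1] at hu
            have := hu.2.2.1
            subst this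
            exact absurd hu.1 hvb
        exact h1.trans (hst v hv)
      · refine le_trans (le_of_eq (sum_eq_zero fun b _ => sum_eq_zero fun u hu => ?_)) zero_le_one
        rw [mem_filter, ad1] at hu
        have := hu.2.2.1
        subst this
        exact absurd hu.2.2.2 hv
    · refine le_trans (sum_le_sum fun b _ => ?_) (hp1 (n, c) j)
      by_cases hc : cl b = c
      · subst hc
        have h2 : ∑ u ∈ A b with u ∈ stp St nd ∧ ad b u (Sum.inr ⟨(n, cl b), j⟩),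
            pq b u (Sum.inr ⟨(n, cl b), j⟩) ≤
            ∑ u ∈ A b with nd u = some n, pq b u (Sum.inr ⟨(n, cl b), j⟩) := by
          refine sum_le_sum_of_subset_of_nonneg (fun u hu => ?_)
            fun u _ _ => hpq0 b u (Sum.inr ⟨(n, cl b), j⟩)
          rw [mem_filter, ad2] at hu
          rw [mem_filter]
          exact ⟨hu.1, hu.2.2.1⟩
        refine h2.trans ?_
        simp only [pq2]
        rw [← sum_div, ← sum_mul, ← hdem, ← hwt1]
        by_cases hw0 : wt (n, cl b) b = 0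
        · rw [hw0]
          simp only [zero_mul, zero_div]
          exact hp0 _ _ _
        · rw [mul_comm, mul_div_assoc, div_self hw0, mul_one]
      · refine le_trans (le_of_eq (sum_eq_zero fun u hu => ?_)) (hp0 _ _ _)
        rw [mem_filter, ad2] at hu
        exact absurd hu.2.2.2.1 hc
  obtain ⟨f, hf1, hf2⟩ := hall0 A C N W (fun _ => stp St nd) S ad pq hpq0
    (fun b U hU Y hY => (hb b U hU Y hY).trans (sum_le_sum fun u hu => by
      rw [mem_filter] at hu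
      exact hpqs b u (hU hu.1) hu.2)) hpq1
  refine ⟨Exi V ι κ k, inferInstance, ad, f, hf1, hf2, ?_, ?_, ?_, ?_⟩
  · intro v hv b b' q q' h1 h2
    rcases q with a | c
    · rcases q' with a' | c'
      · rw [ad1] at h1 h2
        rw [← h1.1, ← h2.1]
      · rw [ad2, hv] at h2
        exact absurd h2.1 (by simp)
    · rw [ad2, hv] at h1
      exact absurd h1.1 (by simp)
  · intro v hv b q h1
    rcases q with a | c
    · rw [ad1] at h1
      exact h1.2
    · rw [ad2, hv] at h1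
      exact absurd h1.1 (by simp)
  · intro n b I g hI hg
    have h1 : I.image g ⊆ (univ.filter fun j => p (n, cl b) b j ≠ 0).image
        (fun j => some (Sum.inr ⟨(n, cl b), j⟩ : Exi V ι κ k)) := by
      intro q hq
      obtain ⟨pr, hpr, rfl⟩ := mem_image.1 hq
      obtain ⟨h2, h3, q, h4, h5⟩ := hI pr hpr
      rw [mem_image]
      rcases q with a | ⟨⟨n', c'⟩, j⟩
      · rw [ad1] at h5
        have := hSt _ h5.2
        rw [h3] at this
        exact absurd this (by simp)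
      · rw [ad2] at h5
        obtain ⟨h5, h6, h7⟩ := h5
        rw [h3] at h5
        have h5' : n = n' := Option.some.inj h5
        subst h5'
        simp only at h6
        rw [h2] at h6 h7
        subst h6
        exact ⟨j, mem_filter.2 ⟨mem_univ _, h7⟩, h4.symm⟩
    have h2 := card_le_card h1
    rw [card_image_of_injOn hg] at h2
    have h3 := h2.trans card_image_le
    have h4 : (#I : ℝ) ≤ (((univ.filter fun j => p (n, cl b) b j ≠ 0).card : ℕ) : ℝ) :=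
      Nat.cast_le.2 h3
    have h5 := hp2 (n, cl b) b
    rw [hwt1] at h5
    exact h4.trans h5
  · intro n c I g hI hg
    have h1 : I.image g ⊆ (univ : Finset (Fin (k (n, c)))).image
        (fun j => some (Sum.inr ⟨(n, c), j⟩ : Exi V ι κ k)) := by
      intro q hq
      obtain ⟨pr, hpr, rfl⟩ := mem_image.1 hq
      obtain ⟨h2, h3, q, h4, h5⟩ := hI pr hpr
      rw [mem_image]
      rcases q with a | ⟨⟨n', c'⟩, j⟩
      · rw [ad1] at h5
        have := hSt _ h5.2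
        rw [h3] at this
        exact absurd this (by simp)
      · rw [ad2] at h5
        obtain ⟨h5, h6, h7⟩ := h5
        rw [h3] at h5
        have h5' : n = n' := Option.some.inj h5
        subst h5'
        simp only at h6
        rw [h2] at h6
        subst h6
        exact ⟨j, mem_univ _, h4.symm⟩
    have h2 := card_le_card h1
    rw [card_image_of_injOn hg] at h2
    have h3 := h2.trans card_image_le
    rw [card_univ, Fintype.card_fin] at h3
    have h4 : (#I : ℝ) ≤ (k (n, c) : ℝ) := Nat.cast_le.2 h3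
    refine (h4.trans (hk (n, c))).trans (le_of_eq ?_)
    rw [sum_filter, sum_congr rfl fun b _ => hwt (n, c) b]

end Side

/-- the copies of colour `b` stopping at `n` -/
theorem count_b {V : Type u} {B : Type v} [Fintype V] [Fintype B] {Q : Type w}
    (A : B → Finset V) (xA : B → V → Option Q) (ad : B → V → Q → Prop) (F : B → V → V)
    (hA : ∀ b, ∀ v ∈ A b, F b v = v → ∃ q, xA b v = some q ∧ ad b v q)
    (hi : ∀ b v b' v' q, v ∈ A b → v' ∈ A b' → xA b v = some q → xA b' v' = some q →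
        b = b' ∧ v = v') (I : Finset (B × V)) (hI : ∀ p ∈ I, p.2 ∈ A p.1 ∧ F p.1 p.2 = p.2) :
    (∀ p ∈ I, ∃ q, xA p.1 p.2 = some q ∧ ad p.1 p.2 q) ∧
      Set.InjOn (fun p : B × V => xA p.1 p.2) I := by
  refine ⟨fun p hp => hA _ _ (hI p hp).1 (hI p hp).2, fun a ha b hb hab => ?_⟩
  obtain ⟨q, hq1, _⟩ := hA _ _ (hI a ha).1 (hI a ha).2
  simp only at hab
  rw [hq1] at hab
  obtain ⟨e1, e2⟩ := hi _ _ _ _ _ (hI a ha).1 (hI b hb).1 hq1 hab.symm
  exact Prod.ext e1 e2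

/-- **HALLX**, general form. -/
theorem hallD {V : Type u} {B : Type v} [Fintype V] [Fintype B] {ι : Type w} [Fintype ι]
    {κ : Type w'} [Fintype κ] (A C : B → Finset V) (N : B → V → V) (W : B → Finset V)
    (StA StC : Finset V) (nd : V → Option ι) (cl : B → κ)
    (hSA : ∀ v ∈ StA, nd v = none) (hSC : ∀ v ∈ StC, nd v = none) (hSS : Disjoint StA StC)
    (S : B → V → V → Prop) (D D' : B → V → ℝ) (hAC : ∀ b, Disjoint (A b) (C b))
    (hN : ∀ b, ∀ u ∈ A b, u ∉ W b → N b u ∈ C b ∧ N b u ∉ W b ∧ N b (N b u) = u)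
    (hN' : ∀ b, ∀ u ∈ C b, u ∉ W b → N b u ∈ A b ∧ N b u ∉ W b ∧ N b (N b u) = u)
    (hD0 : ∀ b, ∀ u ∈ A b, u ∈ stp StA nd → 0 ≤ D b u)
    (hD0' : ∀ b, ∀ u ∈ C b, u ∈ stp StC nd → 0 ≤ D' b u)
    (hb : ∀ b, ∀ U ⊆ A b, ∀ Y : Finset V,
      (∀ y, y ∈ Y ↔ y ∈ C b ∧ ∃ u ∈ U, (u ∉ W b ∧ N b u = y) ∨ S b u y) →
      (#U : ℝ) - #Y ≤ ∑ u ∈ U with u ∈ stp StA nd, D b u)
    (hb' : ∀ b, ∀ U ⊆ C b, ∀ Y : Finset V,
      (∀ y, y ∈ Y ↔ y ∈ A b ∧ ∃ u ∈ U, (u ∉ W b ∧ N b u = y) ∨ S b y u) →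
      (#U : ℝ) - #Y ≤ ∑ u ∈ U with u ∈ stp StC nd, D' b u)
    (hst : ∀ u ∈ StA, ∑ b with u ∈ A b, D b u ≤ 1)
    (hst' : ∀ u ∈ StC, ∑ b with u ∈ C b, D' b u ≤ 1) :
    ∃ F : B → V → V,
      (∀ b, ∀ v ∈ A b, (F b v = v ∧ v ∈ stp StA nd) ∨ (F b v ∈ C b ∧ F b (F b v) = v ∧
        ((v ∉ W b ∧ N b v = F b v) ∨ S b v (F b v)))) ∧
      (∀ b, ∀ v ∈ C b, (F b v = v ∧ v ∈ stp StC nd) ∨ (F b v ∈ A b ∧ F b (F b v) = v ∧
        ((v ∉ W b ∧ N b v = F b v) ∨ S b (F b v) v))) ∧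
      (∀ v, nd v = none → #{b | (v ∈ A b ∨ v ∈ C b) ∧ F b v = v} ≤ 1) ∧
      (∀ n b, (#{v ∈ A b | nd v = some n ∧ F b v = v} : ℝ) ≤ dem A nd D b n + 2) ∧
      (∀ n b, (#{v ∈ C b | nd v = some n ∧ F b v = v} : ℝ) ≤ dem C nd D' b n + 2) ∧
      (∀ n c, ∑ b with cl b = c, (#{v ∈ A b | nd v = some n ∧ F b v = v} : ℝ) ≤
        ∑ b with cl b = c, dem A nd D b n + 1) ∧
      ∀ n c, ∑ b with cl b = c, (#{v ∈ C b | nd v = some n ∧ F b v = v} : ℝ) ≤
        ∑ b with cl b = c, dem C nd D' b n + 1 := by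
  obtain ⟨QA, iA, ad, f, hf1, hf2, hf3, hf4, hf5, hf6⟩ := hallS A C N W StA nd cl hSA S D hD0 hb hst
  obtain ⟨QC, iC, ad', g, hg1, hg2, hg3, hg4, hg5, hg6⟩ := hallS C A N W StC nd cl hSC
    (fun b u v => S b v u) D' hD0' hb' hst'
  obtain ⟨F, xA, xC, h1, h2, h3, h4⟩ := allQ A C N W (fun _ => stp StA nd) (fun _ => stp StC nd)
    S ad ad' f g hf1 hf2 hg1 hg2 hAC hN hN'
  -- stops
  have hA : ∀ b, ∀ v ∈ A b, F b v = v → ∃ q, xA b v = some q ∧ ad b v q := by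
    intro b v hv hF
    rcases h1 b v hv with ⟨_, _, h6⟩ | ⟨h5, _⟩
    · exact h6
    · rw [hF] at h5
      exact absurd h5 (Finset.disjoint_left.1 (hAC b) hv)
  have hC : ∀ b, ∀ v ∈ C b, F b v = v → ∃ q, xC b v = some q ∧ ad' b v q := by
    intro b v hv hF
    rcases h2 b v hv with ⟨_, _, h6⟩ | ⟨h5, _⟩
    · exact h6
    · rw [hF] at h5
      exact absurd hv (Finset.disjoint_left.1 (hAC b) h5)
  have key1 : ∀ (A' : B → Finset V) n b, ∀ p ∈ ({v ∈ A' b | nd v = some n ∧ F b v = v}).image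
      (fun v => (b, v)), p.1 = b ∧ nd p.2 = some n ∧ p.2 ∈ A' p.1 ∧ F p.1 p.2 = p.2 := by
    intro A' n b p hp
    obtain ⟨v, hv, rfl⟩ := mem_image.1 hp
    rw [mem_filter] at hv
    exact ⟨rfl, hv.2.1, hv.1, hv.2.2⟩
  have key2 : ∀ (A' : B → Finset V) n c, ∀ p ∈ ({b | cl b = c} : Finset B).biUnion
      (fun b => ({v ∈ A' b | nd v = some n ∧ F b v = v}).image (fun v => (b, v))),
      cl p.1 = c ∧ nd p.2 = some n ∧ p.2 ∈ A' p.1 ∧ F p.1 p.2 = p.2 := by
    intro A' n c p hp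
    obtain ⟨b, hb, hp⟩ := mem_biUnion.1 hp
    obtain ⟨e1, e2, e3, e4⟩ := key1 A' n b p hp
    rw [e1]
    rw [e1] at e3 e4
    exact ⟨(mem_filter.1 hb).2, e2, e3, e4⟩
  have card1 : ∀ (A' : B → Finset V) n b, #({v ∈ A' b | nd v = some n ∧ F b v = v}) =
      #(({v ∈ A' b | nd v = some n ∧ F b v = v}).image (fun v => (b, v))) := by
    intro A' n b
    exact (card_image_of_injective _ (Prod.mk_right_injective b)).symm
  have card2 : ∀ (A' : B → Finset V) n c,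
      ∑ b with cl b = c, (#{v ∈ A' b | nd v = some n ∧ F b v = v} : ℝ) =
      #(({b | cl b = c} : Finset B).biUnion
      (fun b => ({v ∈ A' b | nd v = some n ∧ F b v = v}).image (fun v => (b, v)))) := by
    intro A' n c
    rw [card_biUnion]
    · push_cast
      refine sum_congr rfl fun b _ => ?_
      rw [card1]
    · intro b _ b' _ hbb
      refine Finset.disjoint_left.2 ?_
      intro p hp hp'
      obtain ⟨v, _, rfl⟩ := mem_image.1 hp
      obtain ⟨v', _, hv'⟩ := mem_image.1 hp'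
      exact hbb (congrArg Prod.fst hv').symm
  refine ⟨F, ?_, ?_, ?_, ?_, ?_, ?_, ?_⟩
  · intro b v hv
    rcases h1 b v hv with ⟨h5, h6, _⟩ | ⟨h5, h6, _, h7⟩
    · exact Or.inl ⟨h5, h6⟩
    · exact Or.inr ⟨h5, h6, h7⟩
  · intro b v hv
    rcases h2 b v hv with ⟨h5, h6, _⟩ | ⟨h5, h6, _, h7⟩
    · exact Or.inl ⟨h5, h6⟩
    · exact Or.inr ⟨h5, h6, h7⟩
  · intro v hv
    rw [card_le_one]
    intro b hb b' hb'
    simp only [mem_filter, mem_univ, true_and] at hb hb'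
    rcases hb with ⟨hb | hb, hbF⟩ <;> rcases hb' with ⟨hb' | hb', hbF'⟩
    · obtain ⟨q, hq1, hq2⟩ := hA b v hb hbF
      obtain ⟨q', hq1', hq2'⟩ := hA b' v hb' hbF'
      rw [hf3 v hv b b' q q' hq2 hq2'] at hq1
      exact (h3 b v b' v q' hb hb' hq1 hq1').1
    · obtain ⟨q, hq1, hq2⟩ := hA b v hb hbF
      obtain ⟨q', hq1', hq2'⟩ := hC b' v hb' hbF'
      exact absurd (hg4 v hv b' q' hq2') (Finset.disjoint_left.1 hSS (hf4 v hv b q hq2))
    · obtain ⟨q, hq1, hq2⟩ := hC b v hb hbF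
      obtain ⟨q', hq1', hq2'⟩ := hA b' v hb' hbF'
      exact absurd (hg4 v hv b q hq2) (Finset.disjoint_left.1 hSS (hf4 v hv b' q' hq2'))
    · obtain ⟨q, hq1, hq2⟩ := hC b v hb hbF
      obtain ⟨q', hq1', hq2'⟩ := hC b' v hb' hbF'
      rw [hg3 v hv b b' q q' hq2 hq2'] at hq1
      exact (h4 b v b' v q' hb hb' hq1 hq1').1
  · intro n b
    rw [card1 A n b]
    obtain ⟨e1, e2⟩ := count_b A xA ad F hA h3
      (({v ∈ A b | nd v = some n ∧ F b v = v}).image (fun v => (b, v)))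
      (fun p hp => ⟨(key1 A n b p hp).2.2.1, (key1 A n b p hp).2.2.2⟩)
    exact hf5 n b _ (fun p => xA p.1 p.2) (fun p hp => ⟨(key1 A n b p hp).1,
      (key1 A n b p hp).2.1, e1 p hp⟩) e2
  · intro n b
    rw [card1 C n b]
    obtain ⟨e1, e2⟩ := count_b C xC ad' F hC h4
      (({v ∈ C b | nd v = some n ∧ F b v = v}).image (fun v => (b, v)))
      (fun p hp => ⟨(key1 C n b p hp).2.2.1, (key1 C n b p hp).2.2.2⟩)
    exact hg5 n b _ (fun p => xC p.1 p.2) (fun p hp => ⟨(key1 C n b p hp).1,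
      (key1 C n b p hp).2.1, e1 p hp⟩) e2
  · intro n c
    rw [card2 A n c]
    obtain ⟨e1, e2⟩ := count_b A xA ad F hA h3 (({b | cl b = c} : Finset B).biUnion
      (fun b => ({v ∈ A b | nd v = some n ∧ F b v = v}).image (fun v => (b, v))))
      (fun p hp => ⟨(key2 A n c p hp).2.2.1, (key2 A n c p hp).2.2.2⟩)
    exact hf6 n c _ (fun p => xA p.1 p.2) (fun p hp => ⟨(key2 A n c p hp).1,
      (key2 A n c p hp).2.1, e1 p hp⟩) e2
  · intro n c
    rw [card2 C n c]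
    obtain ⟨e1, e2⟩ := count_b C xC ad' F hC h4 (({b | cl b = c} : Finset B).biUnion
      (fun b => ({v ∈ C b | nd v = some n ∧ F b v = v}).image (fun v => (b, v))))
      (fun p hp => ⟨(key2 C n c p hp).2.2.1, (key2 C n c p hp).2.2.2⟩)
    exact hg6 n c _ (fun p => xC p.1 p.2) (fun p hp => ⟨(key2 C n c p hp).1,
      (key2 C n c p hp).2.1, e1 p hp⟩) e2

/-- **HALLX**, certificates with stars. -/
theorem hallX {V : Type u} {B : Type v} [Fintype V] [Fintype B] {ι : Type w} [Fintype ι]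
    {κ : Type w'} [Fintype κ] (A C : B → Finset V) (N : B → V → V) (W K K' : B → Finset V)
    (StA StC : Finset V) (nd : V → Option ι) (cl : B → κ)
    (hSA : ∀ v ∈ StA, nd v = none) (hSC : ∀ v ∈ StC, nd v = none) (hSS : Disjoint StA StC)
    (S : B → V → V → Prop) (x x' : B → V → V → ℝ) (e e' : B → V → ℝ)
    (Dm Dt Dp T0 m m' τ Ex σ z : ℝ) (hAC : ∀ b, Disjoint (A b) (C b))
    (h : ∀ b, Cert (A b) (C b) (W b) (stp StA nd) (K b) (S b) (x b) (e b) Dm Dt Dp T0 m m' τ)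
    (h' : ∀ b, Cert (C b) (A b) (W b) (stp StC nd) (K' b) (fun u v => S b v u) (x' b) (e' b)
      Dm Dt Dp T0 m m' τ)
    (hN : ∀ b, ∀ u ∈ A b, u ∉ W b → N b u ∈ C b ∧ N b u ∉ W b ∧ N b (N b u) = u)
    (hN' : ∀ b, ∀ u ∈ C b, u ∉ W b → N b u ∈ A b ∧ N b u ∉ W b ∧ N b (N b u) = u)
    (hτ : 0 ≤ τ) (hm : 0 ≤ m) (hDp : 0 < Dp) (hDm : 0 ≤ Dm) (hDt : 0 < Dt) (hT0 : 0 ≤ T0)
    (hEx0 : 0 ≤ Ex) (hEx : Dp - Dm + Dm * (T0 / Dt) ≤ Ex) (hσ0 : 0 < σ)
    (hσ : σ * Dp ≤ m * (m' / Dp) - Ex)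
    (he0 : ∀ b, ∀ u ∈ A b, u ∈ stp StA nd → 0 ≤ e b u)
    (he0' : ∀ b, ∀ u ∈ C b, u ∈ stp StC nd → 0 ≤ e' b u)
    (he : ∀ u ∈ StA, ∑ b with u ∈ A b, e b u ≤ 1 / 2)
    (he' : ∀ u ∈ StC, ∑ b with u ∈ C b, e' b u ≤ 1 / 2)
    (hz : ∀ u ∈ StA, (#{b | u ∈ A b} : ℝ) ≤ z) (hz' : ∀ u ∈ StC, (#{b | u ∈ C b} : ℝ) ≤ z)
    (hzz : z * (τ * Ex) ≤ σ / 2) :
    ∃ F : B → V → V,
      (∀ b, ∀ v ∈ A b, (F b v = v ∧ v ∈ stp StA nd) ∨ (F b v ∈ C b ∧ F b (F b v) = v ∧
        ((v ∉ W b ∧ N b v = F b v) ∨ S b v (F b v)))) ∧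
      (∀ b, ∀ v ∈ C b, (F b v = v ∧ v ∈ stp StC nd) ∨ (F b v ∈ A b ∧ F b (F b v) = v ∧
        ((v ∉ W b ∧ N b v = F b v) ∨ S b (F b v) v))) ∧
      (∀ v, nd v = none → #{b | (v ∈ A b ∨ v ∈ C b) ∧ F b v = v} ≤ 1) ∧
      (∀ n b, (#{v ∈ A b | nd v = some n ∧ F b v = v} : ℝ) ≤ dem A nd (fun b u => e b u + τ * Ex / σ) b n + 2) ∧
      (∀ n b, (#{v ∈ C b | nd v = some n ∧ F b v = v} : ℝ) ≤ dem C nd (fun b u => e' b u + τ * Ex / σ) b n + 2) ∧
      (∀ n c, ∑ b with cl b = c, (#{v ∈ A b | nd v = some n ∧ F b v = v} : ℝ) ≤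
        ∑ b with cl b = c, dem A nd (fun b u => e b u + τ * Ex / σ) b n + 1) ∧
      ∀ n c, ∑ b with cl b = c, (#{v ∈ C b | nd v = some n ∧ F b v = v} : ℝ) ≤
        ∑ b with cl b = c, dem C nd (fun b u => e' b u + τ * Ex / σ) b n + 1 := by
  have ht0 : 0 ≤ τ * Ex / σ := div_nonneg (mul_nonneg hτ hEx0) hσ0.le
  have hstar : ∀ (A' : B → Finset V) (e : B → V → ℝ) (u : V), ∑ b with u ∈ A' b, e b u ≤ 1 / 2 →
      (#{b | u ∈ A' b} : ℝ) ≤ z → ∑ b with u ∈ A' b, (e b u + τ * Ex / σ) ≤ 1 := by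
    intro A' e u g4 g5
    rw [sum_add_distrib, sum_const, nsmul_eq_mul]
    have g6 : (#{b | u ∈ A' b} : ℝ) * (τ * Ex / σ) ≤ 1 / 2 := by
      refine (mul_le_mul_of_nonneg_right g5 ht0).trans ?_
      rw [← mul_div_assoc, div_le_iff₀ hσ0]
      linarith
    linarith
  exact hallD A C N W StA StC nd cl hSA hSC hSS S _ _ hAC hN hN'
    (fun b u hu hu2 => add_nonneg (he0 b u hu hu2) ht0)
    (fun b u hu hu2 => add_nonneg (he0' b u hu hu2) ht0)
    (fun b U hU Y hY => def_star (h b) (hN b) hτ hm hDp hDm hDt hT0 hEx0 hEx hσ0 hσ (he0 b) U hU Y hY)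
    (fun b U hU Y hY => def_star (h' b) (hN' b) hτ hm hDp hDm hDt hT0 hEx0 hEx hσ0 hσ (he0' b)
      U hU Y hY)
    (fun u hu => hstar A e u (he u hu) (hz u hu)) (fun u hu => hstar C e' u (he' u hu) (hz' u hu))

/-- **HALLX**, certificates in slack form. -/
theorem hallXs {V : Type u} {B : Type v} [Fintype V] [Fintype B] {ι : Type w} [Fintype ι]
    {κ : Type w'} [Fintype κ] (A C : B → Finset V) (N : B → V → V) (W : B → Finset V)
    (StA StC : Finset V) (nd : V → Option ι) (cl : B → κ)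
    (hSA : ∀ v ∈ StA, nd v = none) (hSC : ∀ v ∈ StC, nd v = none) (hSS : Disjoint StA StC)
    (S : B → V → V → Prop) (x x' : B → V → V → ℝ) (D D' : B → V → ℝ)
    (Dm Dt Dp T0 τ Ex : ℝ) (hAC : ∀ b, Disjoint (A b) (C b))
    (h : ∀ b, CertS (A b) (C b) (W b) (S b) (x b) (D b) Dm Dt Dp T0 τ Ex)
    (h' : ∀ b, CertS (C b) (A b) (W b) (fun u v => S b v u) (x' b) (D' b) Dm Dt Dp T0 τ Ex)
    (hN : ∀ b, ∀ u ∈ A b, u ∉ W b → N b u ∈ C b ∧ N b u ∉ W b ∧ N b (N b u) = u)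
    (hN' : ∀ b, ∀ u ∈ C b, u ∉ W b → N b u ∈ A b ∧ N b u ∉ W b ∧ N b (N b u) = u)
    (hτ : 0 ≤ τ) (hDp : 0 < Dp) (hDm : 0 ≤ Dm) (hDt : 0 < Dt) (hT0 : 0 ≤ T0)
    (hEx : Dp - Dm + Dm * (T0 / Dt) ≤ Ex)
    (hz : ∀ b, ∀ u ∈ A b, u ∉ stp StA nd → D b u = 0)
    (hz' : ∀ b, ∀ u ∈ C b, u ∉ stp StC nd → D' b u = 0)
    (hst : ∀ u ∈ StA, ∑ b with u ∈ A b, D b u ≤ 1)
    (hst' : ∀ u ∈ StC, ∑ b with u ∈ C b, D' b u ≤ 1) :
    ∃ F : B → V → V,
      (∀ b, ∀ v ∈ A b, (F b v = v ∧ v ∈ stp StA nd) ∨ (F b v ∈ C b ∧ F b (F b v) = v ∧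
        ((v ∉ W b ∧ N b v = F b v) ∨ S b v (F b v)))) ∧
      (∀ b, ∀ v ∈ C b, (F b v = v ∧ v ∈ stp StC nd) ∨ (F b v ∈ A b ∧ F b (F b v) = v ∧
        ((v ∉ W b ∧ N b v = F b v) ∨ S b (F b v) v))) ∧
      (∀ v, nd v = none → #{b | (v ∈ A b ∨ v ∈ C b) ∧ F b v = v} ≤ 1) ∧
      (∀ n b, (#{v ∈ A b | nd v = some n ∧ F b v = v} : ℝ) ≤ dem A nd D b n + 2) ∧
      (∀ n b, (#{v ∈ C b | nd v = some n ∧ F b v = v} : ℝ) ≤ dem C nd D' b n + 2) ∧
      (∀ n c, ∑ b with cl b = c, (#{v ∈ A b | nd v = some n ∧ F b v = v} : ℝ) ≤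
        ∑ b with cl b = c, dem A nd D b n + 1) ∧
      ∀ n c, ∑ b with cl b = c, (#{v ∈ C b | nd v = some n ∧ F b v = v} : ℝ) ≤
        ∑ b with cl b = c, dem C nd D' b n + 1 := by
  have key : ∀ (A' : Finset V) (St : Finset V) (D : V → ℝ) (U : Finset V), U ⊆ A' →
      (∀ u ∈ A', u ∉ stp St nd → D u = 0) → ∑ u ∈ U, D u ≤ ∑ u ∈ U with u ∈ stp St nd, D u := by
    intro A' St D U hU h0
    rw [← sum_filter_add_sum_filter_not U (fun u => u ∈ stp St nd)]
    have : ∑ u ∈ U with ¬ u ∈ stp St nd, D u = 0 := by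
      refine sum_eq_zero fun u hu => ?_
      rw [mem_filter] at hu
      exact h0 u (hU hu.1) hu.2
    rw [this, add_zero]
  exact hallD A C N W StA StC nd cl hSA hSC hSS S D D' hAC hN hN'
    (fun b u hu _ => (h b).z0 u hu) (fun b u hu _ => (h' b).z0 u hu)
    (fun b U hU Y hY => (def_slack (h b) (hN b) hτ hDp hDm hDt hT0 hEx U hU Y hY).trans
      (key (A b) StA (D b) U hU (hz b)))
    (fun b U hU Y hY => (def_slack (h' b) (hN' b) hτ hDp hDm hDt hT0 hEx U hU Y hY).trans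
      (key (C b) StC (D' b) U hU (hz' b)))
    hst hst'

end Pool.Agent.Work.MP_db9399_hx.helper68
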